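import Pool.Agent.helper13.RF.SpecT

/-! Row TL3 of MP_16912e_nt (project RF, stage 2, plan of helper13): bounded valuations if `l` divides `f` to a high power. -/

set_option autoImplicit false

namespace Pool.Agent.RF

open NumberField

theorem TL3_re (n : ℕ) (c : OO) : ((n : OO) * c).re = n * c.re := by simp

theorem TL3_im (n : ℕ) (c : OO) : ((n : OO) * c).im = n * c.im := by simp

theorem TL3_ne (x : OO) (h : (25 : OO) ∣ x - 1) : x ≠ 0 := by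
  rintro rfl
  obtain ⟨c, hc⟩ := h
  have h1 : (0 - 1 : OO) = ((25 : ℕ) : OO) * c := by
    rw [hc]
    norm_num
  have h2 := congrArg QuadraticAlgebra.re h1
  rw [TL3_re] at h2
  have h3 : (0 - 1 : OO).re = -1 := rfl
  rw [h3] at h2
  push_cast at h2
  omega

theorem TL3_n0 (n : ℕ) (hn : n ≠ 0) (c : OO) (hc : c ≠ 0) : (n : OO) * c ≠ 0 := by
  intro h
  apply hc
  have h1 := congrArg QuadraticAlgebra.re h
  have h2 := congrArg QuadraticAlgebra.im h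
  rw [TL3_re] at h1
  rw [TL3_im] at h2
  have hn' : (n : ℤ) ≠ 0 := by exact_mod_cast hn
  apply QuadraticAlgebra.ext
  · exact (mul_eq_zero.1 h1).resolve_left hn'
  · exact (mul_eq_zero.1 h2).resolve_left hn'

theorem TL3_pow (h3 : VVM_stmt) (F : Type) [Field F] [NumberField F] (P : Ideal (𝓞 F)) (hP : P.IsPrime) (hP0 : P ≠ ⊥)
    (x : 𝓞 F) (hx : x ≠ 0) (n : ℕ) : vv P (x ^ n) = n * vv P x := by
  induction n with
  | zero =>
    have h1 := (h3 F P hP hP0).1 1 1 one_ne_zero one_ne_zero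
    rw [mul_one] at h1
    rw [pow_zero]
    omega
  | succ n ih =>
    rw [pow_succ, (h3 F P hP hP0).1 _ _ (pow_ne_zero _ hx) hx, ih]
    ring

theorem TL3 (h1 : TLM_stmt) (h2 : VVM_stmt) (h3 : TVA_stmt) : TL3_stmt := by
  intro D₀ F _ _ C p f hp hpD l j hl hlg hlj hcj P hP hP0 hlP
  obtain ⟨v1, v2, v3⟩ := h2 F P hP hP0
  obtain ⟨t1, -, -⟩ := h3 F P hP hP0
  have inj : ∀ a : OO, a ≠ 0 → C.ι a ≠ 0 := by
    intro a ha h
    exact ha (C.ind a 0 (by rw [h, map_zero, zero_mul, add_zero])).1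
  have hn0 : p.n ≠ 0 := TL3_ne p.n hp.n1
  have hX0 : p.X ≠ 0 := TL3_ne p.X hp.X1
  have hns0 : star p.n ≠ 0 := fun h => hn0 (by rw [← star_star p.n, h, star_zero])
  have hg0 : ct p ≠ 0 := by
    intro h
    have h4 := Int.gcd_eq_zero_iff.1 h
    exact hn0 (QuadraticAlgebra.ext h4.1 h4.2)
  have hl0 : (l : 𝓞 F) ≠ 0 := Nat.cast_ne_zero.2 hl.ne_zero
  have hgF : ((ct p : ℕ) : 𝓞 F) ≠ 0 := Nat.cast_ne_zero.2 hg0
  have he : 1 ≤ vv P (l : 𝓞 F) := (v2 _ hl0).2 hlP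
  obtain ⟨e, hee⟩ : ∃ e, e = vv P (l : 𝓞 F) := ⟨_, rfl⟩
  obtain ⟨c, hc⟩ : ∃ c, c = (ct p).factorization l := ⟨_, rfl⟩
  -- the valuation of the content
  have hG : vv P ((ct p : ℕ) : 𝓞 F) = (ct p).factorization l * vv P (l : 𝓞 F) := by
    obtain ⟨g2, hg2⟩ : ∃ g2, g2 = ct p / l ^ (ct p).factorization l := ⟨_, rfl⟩
    have h4 : l ^ (ct p).factorization l * g2 = ct p := by rw [hg2]; exact Nat.ordProj_mul_ordCompl_eq_self _ _
    have h5 : ¬ l ∣ g2 := by rw [hg2]; exact Nat.not_dvd_ordCompl hl hg0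
    have hg20 : g2 ≠ 0 := by
      rintro rfl
      exact h5 (dvd_zero _)
    have h6 : (g2 : 𝓞 F) ∉ P := by
      intro h7
      have h8 : Nat.Coprime l g2 := (Nat.Prime.coprime_iff_not_dvd hl).2 h5
      have h9 : IsCoprime ((l : ℕ) : ℤ) ((g2 : ℕ) : ℤ) := Nat.isCoprime_iff_coprime.2 h8
      obtain ⟨a, b, hab⟩ := h9
      have h10 : ((a : 𝓞 F)) * (l : 𝓞 F) + (b : 𝓞 F) * (g2 : 𝓞 F) = 1 := by
        have := congrArg (fun z : ℤ => (z : 𝓞 F)) hab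
        push_cast at this
        exact this
      apply hP.ne_top
      rw [Ideal.eq_top_iff_one, ← h10]
      exact P.add_mem (P.mul_mem_left _ hlP) (P.mul_mem_left _ h7)
    have hg2F : (g2 : 𝓞 F) ≠ 0 := Nat.cast_ne_zero.2 hg20
    have h7 : vv P (g2 : 𝓞 F) = 0 := by
      by_contra h
      exact h6 ((v2 _ hg2F).1 (Nat.pos_of_ne_zero h))
    have h8 : ((ct p : ℕ) : 𝓞 F) = (l : 𝓞 F) ^ (ct p).factorization l * (g2 : 𝓞 F) := by
      rw [← Nat.cast_pow, ← Nat.cast_mul, h4]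
    rw [h8, v1 _ _ (pow_ne_zero _ hl0) hg2F, h7, TL3_pow h2 F P hP hP0 _ hl0, add_zero]
  have hgP : ((ct p : ℕ) : 𝓞 F) ∈ P := by
    obtain ⟨t, ht⟩ := hlg
    rw [ht, Nat.cast_mul]
    exact P.mul_mem_right _ hlP
  refine ⟨hG, he, ?_⟩
  obtain ⟨a0, a1, m, m', e1, e2, e3, e4, e5⟩ := h1 D₀ F C p hp P hP hP0 hgP
  obtain ⟨G, hGe⟩ : ∃ G, G = vv P ((ct p : ℕ) : 𝓞 F) := ⟨_, rfl⟩
  rw [← hGe] at e1 e2 e4 e5 hG
  rw [← hGe]
  rw [← hc, ← hee] at hG
  rw [← hc] at hcj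
  rw [← hee] at he
  -- the discriminant
  have hDF : ((p.D : ℤ) : 𝓞 F) ≠ 0 := Int.cast_ne_zero.2 hp.D0.ne'
  have hD : 4 * G < vv P ((p.D : ℤ) : 𝓞 F) := by
    have h4 : (l : 𝓞 F) ^ (2 * j) ∣ ((p.D : ℤ) : 𝓞 F) := by
      rw [hpD]
      obtain ⟨t, ht⟩ := hlj
      refine ⟨(D₀ : 𝓞 F) * (t : 𝓞 F) ^ 2, ?_⟩
      rw [ht]
      push_cast
      ring
    have h5 := v3 _ _ hDF h4
    rw [TL3_pow h2 F P hP hP0 _ hl0, ← hee] at h5
    have h6 : 4 * G < 2 * j * e := by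
      rw [hG]
      have : (2 * c + 1) * e ≤ j * e := Nat.mul_le_mul_right _ hcj
      nlinarith
    omega
  have key : vv P (C.ι (2 * p.X)) ≤ 2 * G → 4 * G < vv P (C.ι (p.n ^ 2 * star p.n)) → False := by
    intro k1 k2
    have hX2 : (2 : OO) * p.X ≠ 0 := TL3_n0 2 (by norm_num) p.X hX0
    have k3 : vv P (C.ι p.X) ≤ 2 * G := by
      refine (v3 _ _ (inj _ hX2) ?_).trans k1
      rw [map_mul]
      exact dvd_mul_left _ _
    have k4 : vv P (C.ι p.X ^ 2) = 2 * vv P (C.ι p.X) := TL3_pow h2 F P hP hP0 _ (inj _ hX0) 2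
    have hw : w2 ≠ 0 := by
      intro h
      have h7 := congrArg QuadraticAlgebra.re h
      have h8 : (w2 : OO).re = 2 := rfl
      have h9 : (0 : OO).re = 0 := rfl
      rw [h8, h9] at h7
      omega
    have hk : (25 : OO) * p.k ≠ 0 := TL3_n0 25 (by norm_num) p.k hp.k0
    have hW0 : C.ι (w2 * (p.D : OO) * (25 * p.k) ^ 2) ≠ 0 := by
      rw [map_mul, map_mul, map_intCast, map_pow]
      exact mul_ne_zero (mul_ne_zero (inj _ hw) hDF) (pow_ne_zero 2 (inj _ hk))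
    have hN0 : C.ι (p.n ^ 2 * star p.n) ≠ 0 := by
      rw [map_mul, map_pow]
      exact mul_ne_zero (pow_ne_zero 2 (inj _ hn0)) (inj _ hns0)
    have k5 : vv P ((p.D : ℤ) : 𝓞 F) ≤ vv P (C.ι (w2 * (p.D : OO) * (25 * p.k) ^ 2)) := by
      refine v3 _ _ hW0 ?_
      rw [map_mul, map_mul, map_intCast]
      exact Dvd.dvd.mul_right (dvd_mul_left _ _) _
    have k6 : C.ι p.X ^ 2 = C.ι (p.n ^ 2 * star p.n) - C.ι (w2 * (p.D : OO) * (25 * p.k) ^ 2) := by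
      rw [← hp.e1, ← map_sub, ← map_pow]
      congr 1
      ring
    have k7 : C.ι p.X ^ 2 ∈ P ^ (4 * G + 1) := by
      rw [k6]
      refine (P ^ (4 * G + 1)).sub_mem ?_ ?_
      · exact (t1 _ _ hN0).2 (by omega)
      · exact (t1 _ _ hW0).2 (by omega)
    have k8 := (t1 _ _ (pow_ne_zero 2 (inj _ hX0))).1 k7
    omega
  have hnn : vv P (C.ι (p.n ^ 2 * star p.n)) = 2 * (G + a0) + (G + a1) := by
    rw [map_mul, map_pow, v1 _ _ (pow_ne_zero 2 (inj _ hn0)) (inj _ hns0), TL3_pow h2 F P hP hP0 _ (inj _ hn0), e1, e2]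
  rw [e1, e2]
  by_contra hcon
  have hc1 : G < a0 ∨ G < a1 := by omega
  have hpos : 0 < a0 + a1 := by omega
  have e4' := e4 hpos
  have hne : a0 + m ≠ a1 + m' := by omega
  have e5' := (e5 hpos hne).1
  refine key ?_ ?_
  · rw [e5']
    omega
  · rw [hnn]
    omega

end Pool.Agent.RF
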